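import Pool.Agent.H354.BG.Stm

set_option autoImplicit false

/-! Tasks CODE and CERT: existence of codes and certificates of non triviality. -/

namespace Pool.Agent.H59.BG.CERT

open Pool.Agent.H354.BG
open Pool.Agent.H482R3.EA (W inv ev PP xx evF cond1 cond2 Syl gOf Sys St Near InD Adm Act)
open Pool.Agent.H482R3.EB (tot wp alt rels AR gR TR Tame Symm alt_length)

lemma compl_inter (D : Dat) (U : Finset (Fin D.r)) (b : Fin D.r) (hb : b ∉ U) :
    ({b}ᶜ : Finset (Fin D.r)) ∩ insert b U = U := by
  ext c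
  simp only [Finset.mem_inter, Finset.mem_compl, Finset.mem_singleton, Finset.mem_insert]
  constructor
  · rintro ⟨h1, h2 | h2⟩
    · exact absurd h2 h1
    · exact h2
  · intro h
    exact ⟨fun h' => hb (h' ▸ h), Or.inr h⟩

lemma stO_ne (D : Dat) (U : Finset (Fin D.r)) (b : Fin D.r) (h : SysOK D U b) (a : Sy D)
    (ha : okS D U b a) : stO D U b h (some a) ≠ .none := by
  rcases a with ⟨g, v, s, n⟩ | ⟨g, y⟩ | ⟨g, v, w, y⟩
  · have hv : D.β v = b := ha
    simp only [stO]
    rw [dif_pos hv]
    simp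
  · simp only [stO]
    simp
  · have hc : okL D U b v w := ha
    simp only [stO]
    rw [dif_pos hc]
    simp

/-- values of lists of good syllables -/
lemma rho_code (hv : S_VRHO) (D : Dat) (U : Finset (Fin D.r)) (b : Fin D.r) (hb : b ∉ U)
    (code : List (Sy D)) (h : ∀ a ∈ code, okS D U b a) :
    rho D (insert b U) (gEl D (code.flatMap (valS D U b))) =
      gEl D (code.flatMap (valS D U b)) := by
  induction code with
  | nil => exact map_one _
  | cons a l ih =>
    rw [List.flatMap_cons, gEl_append, map_mul, ih fun a' ha' => h a' (List.mem_cons_of_mem _ ha'),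
      (hv D U b hb a (h a List.mem_cons_self)).1]

theorem t_CODE (hom : S_OM) (hval : S_VALX) (hsnd : S_SND) (hv : S_VRHO) (_ : S_ACTX) : S_CODE := by
  intro D U b hb h u
  obtain ⟨A⟩ := Pool.Agent.H482R3.EB.Asm.nft (sysX D U b h)
  obtain ⟨v, hv1, hvv⟩ := hval D U b hb h A
  obtain ⟨o1, o2⟩ := hom D U b hb h A
  obtain ⟨code, hc, hω⟩ := o2 (runX D U b h A (flt D (insert b U) u) (A.one, 1)).1
  obtain ⟨c1, -, c3⟩ := o1 code hc
  refine ⟨code, hc, ?_⟩
  -- the second component
  have e1 := (hsnd D U b h A (flt D (insert b U) u) (A.one, 1)).1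
  rw [one_mul, ← rho_gEl, rho_rho, compl_inter D U b hb] at e1
  -- the word over `U`
  have e2 := (hsnd D U b h A (flt D U u) (om D U b h A code, 1)).2.1 (fun a ha hab => by
    have h1 : a ∈ flt D U u := ha
    unfold flt at h1
    rw [List.mem_filter, decide_eq_true_eq] at h1
    exact hb (hab ▸ h1.2))
  rw [one_mul, ← rho_gEl] at e2
  have e3 : runX D U b h A (flt D U u) (om D U b h A code, 1) =
      runX D U b h A (flt D (insert b U) u) (A.one, 1) := by
    rw [e2]
    exact Prod.ext hω e1.symm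
  have e4 := hvv (flt D U u) (om D U b h A code, 1)
  have e5 := hvv (flt D (insert b U) u) (A.one, 1)
  have e6 := hvv (code.flatMap (valS D U b)) (A.one, 1)
  rw [c3, hv1, one_mul, rho_code hv D U b hb code c1] at e6
  rw [e3, e5, hv1, one_mul, e6, ← rho_gEl, ← rho_gEl, rho_rho, Finset.inter_self,
    rho_rho_sub' D (Finset.subset_insert b U)] at e4
  exact e4

theorem t_CERTX (hom : S_OM) (hval : S_VALX) (hsnd : S_SND) (hv : S_VRHO) (hact : S_ACTX) :
    S_CERTX := by
  intro D U b hb h u
  constructor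
  · intro hne
    obtain ⟨code, h1, h2⟩ := t_CODE hom hval hsnd hv hact D U b hb h u
    refine ⟨code, h1, h2, ?_⟩
    by_contra hcon
    rw [not_or, not_not, not_not] at hcon
    obtain ⟨c1, c2⟩ := hcon
    apply hne
    rw [h2, c1, c2, mul_one]
    rfl
  · rintro ⟨code, h1, h2, h3⟩ htriv
    have h4 : rho D U (gEl D u) = 1 := by
      rw [← rho_rho_sub D (Finset.subset_insert b U), htriv, map_one]
    have h5 : code ≠ [] := by
      rcases h3 with h3 | h3
      · exact h3
      · exact absurd h4 h3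
    rw [htriv, h4, mul_one] at h2
    obtain ⟨A⟩ := Pool.Agent.H482R3.EB.Asm.nft (sysX D U b h)
    obtain ⟨o1, -⟩ := hom D U b hb h A
    obtain ⟨c1, c2, c3⟩ := o1 code h1
    have e1 := hact D U b hb h A (code.flatMap (valS D U b)) h2.symm (A.one, 1)
    rw [c3] at e1
    have e2 : om D U b h A code = A.one := congrArg Prod.fst e1
    rw [e2, A.st_one, List.getLast?_eq_some_getLast h5] at c2
    exact stO_ne D U b h _ (c1 _ (List.getLast_mem h5)) c2.symm

end Pool.Agent.H59.BG.CERT

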